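import Mathlib
import Pool.Agent.R982.Grid24Count

/-!
# The random minimum spanning tree of a grid can split in half more often than the uniform one

On the grid `P_2 □ P_4` the uniform spanning tree splits into two equal halves with probability
`44/56 = 11/14`, and the random minimum spanning tree with probability at least `248/315`.
-/

namespace Pool.Agent.Results.MP_ddaf7c_pr.GridMSTExceedsUST

open SimpleGraph MeasureTheory

/-- `T` is a spanning tree of `G`. -/
def IsSpanningTree {V : Type*} (G T : SimpleGraph V) : Prop := T ≤ G ∧ T.IsTree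

/-- `T` is splittable into two equal halves: for some edge `e` of `T`, every connected component
of `T - e` has exactly `N/2` vertices, where `N` is the number of vertices. -/
def SplitsInHalf {V : Type*} [Fintype V] (T : SimpleGraph V) : Prop :=
  ∃ e ∈ T.edgeSet, ∀ c : (T.deleteEdges {e}).ConnectedComponent,
    2 * c.supp.ncard = Fintype.card V

/-- The probability that the uniform spanning tree of `G` is splittable into equal halves. -/
noncomputable def pUST {V : Type*} [Fintype V] (G : SimpleGraph V) : ℝ :=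
  ({T : SimpleGraph V | IsSpanningTree G T ∧ SplitsInHalf T}.ncard : ℝ) /
    ({T : SimpleGraph V | IsSpanningTree G T}.ncard : ℝ)

open scoped Classical in
/-- The total weight of the edges of `T`, for edge weights `w` on `G`. -/
noncomputable def totalWeight {V : Type*} [Fintype V] (G : SimpleGraph V) (w : G.edgeSet → ℝ)
    (T : SimpleGraph V) : ℝ :=
  ∑ e : G.edgeSet, if (e : Sym2 V) ∈ T.edgeSet then w e else 0

/-- `T` is a spanning tree of `G` of minimum total weight. -/
def IsMinSpanningTree {V : Type*} [Fintype V] (G : SimpleGraph V) (w : G.edgeSet → ℝ)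
    (T : SimpleGraph V) : Prop :=
  IsSpanningTree G T ∧ ∀ T' : SimpleGraph V, IsSpanningTree G T' →
    totalWeight G w T ≤ totalWeight G w T'

open scoped Classical in
/-- The law of i.i.d. edge weights, uniform on `[0,1]`. -/
noncomputable def weightLaw {V : Type*} [Fintype V] (G : SimpleGraph V) :
    Measure (G.edgeSet → ℝ) :=
  Measure.pi (fun _ : G.edgeSet => (volume : Measure ℝ).restrict (Set.Icc 0 1))

/-- The probability that the random minimum spanning tree of `G` is splittable into equal
halves. -/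
noncomputable def pMST {V : Type*} [Fintype V] (G : SimpleGraph V) : ℝ :=
  (weightLaw G {w | ∃ T : SimpleGraph V, IsMinSpanningTree G w T ∧ SplitsInHalf T}).toReal

open Pool.Agent.R982.Grid24 Pool.Agent.R982.OrderCells

/-- The two by four grid. -/
abbrev Gr : SimpleGraph (Fin 2 × Fin 4) := pathGraph 2 □ pathGraph 4

lemma isSpanningTree_graphOf (s : ℕ) : IsSpanningTree Gr (graphOf s) ↔ treeB s = true := by
  rw [treeB_iff, IsSpanningTree]
  exact ⟨fun h => h.2, fun h => ⟨graphOf_le s, h⟩⟩

lemma ust_eq : pUST Gr = 44 / 56 := by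
  have h1 : {T : SimpleGraph (Fin 2 × Fin 4) | IsSpanningTree Gr T}
      = graphOf '' (((Finset.range 1024).filter (fun s => treeB s = true) : Finset ℕ) : Set ℕ) := by
    ext T
    rw [Set.mem_image]
    constructor
    · intro hT
      obtain ⟨s, hs, rfl⟩ := exists_mask T hT.1
      refine ⟨s, ?_, rfl⟩
      rw [Finset.coe_filter]
      exact ⟨Finset.mem_range.mpr hs, (isSpanningTree_graphOf s).mp hT⟩
    · rintro ⟨s, hs, rfl⟩
      rw [Finset.coe_filter] at hs
      exact (isSpanningTree_graphOf s).mpr hs.2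
  have h2 : {T : SimpleGraph (Fin 2 × Fin 4) | IsSpanningTree Gr T ∧ SplitsInHalf T}
      = graphOf '' (((Finset.range 1024).filter
        (fun s => (treeB s && splitB s) = true) : Finset ℕ) : Set ℕ) := by
    ext T
    rw [Set.mem_image]
    constructor
    · rintro ⟨hT, hS⟩
      obtain ⟨s, hs, rfl⟩ := exists_mask T hT.1
      have h3 := (isSpanningTree_graphOf s).mp hT
      refine ⟨s, ?_, rfl⟩
      rw [Finset.coe_filter]
      refine ⟨Finset.mem_range.mpr hs, ?_⟩
      rw [Bool.and_eq_true]
      exact ⟨h3, (splitB_iff s h3).mpr hS⟩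
    · rintro ⟨s, hs, rfl⟩
      rw [Finset.coe_filter] at hs
      have h3 := (Bool.and_eq_true _ _).mp hs.2
      exact ⟨(isSpanningTree_graphOf s).mpr h3.1, (splitB_iff s h3.1).mp h3.2⟩
  have hinj : ∀ p : ℕ → Prop, ∀ [DecidablePred p],
      Set.InjOn graphOf (((Finset.range 1024).filter p : Finset ℕ) : Set ℕ) := by
    intro p _ s hs t ht h
    rw [Finset.coe_filter] at hs ht
    exact graphOf_inj (Finset.mem_range.mp hs.1) (Finset.mem_range.mp ht.1) h
  have c1 : ((Finset.range 1024).filter (fun s => treeB s = true)).card = 56 := by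
    decide +kernel
  have c2 : ((Finset.range 1024).filter (fun s => (treeB s && splitB s) = true)).card = 44 := by
    decide +kernel
  rw [pUST, h1, h2, (hinj _).ncard_image, (hinj _).ncard_image,
    Set.ncard_coe_finset, Set.ncard_coe_finset, c1, c2]
  norm_num

/-- The edges of the grid indexed by `Fin 10`. -/
noncomputable def eEquiv : Fin 10 ≃ Gr.edgeSet :=
  Equiv.ofBijective (fun i => ⟨R982.Grid24.edge i, edge_adj i⟩)
    ⟨fun i j h => edge_inj (congrArg Subtype.val h), fun ⟨e, he⟩ => by
      induction e with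
      | _ u v =>
        obtain ⟨i, hi⟩ := edge_complete u v he
        exact ⟨i, Subtype.ext hi⟩⟩

lemma eEquiv_val (i : Fin 10) : (eEquiv i : Sym2 (Fin 2 × Fin 4)) = R982.Grid24.edge i := rfl

open scoped Classical in
lemma totalWeight_graphOf (w : Gr.edgeSet → ℝ) (s : ℕ) :
    totalWeight Gr w (graphOf s) = ∑ i : Fin 10, if s.testBit i = true then w (eEquiv i) else 0 := by
  rw [totalWeight]
  symm
  refine Fintype.sum_equiv eEquiv _ _ fun i => ?_
  rw [eEquiv_val]
  by_cases h : s.testBit i = true
  · rw [if_pos h, if_pos ((edge_mem_graphOf s i).mpr h)]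
  · rw [if_neg h, if_neg (fun h' => h ((edge_mem_graphOf s i).mp h'))]

lemma exchange (w : Gr.edgeSet → ℝ) (s : ℕ) (x y : Fin 10) (hx : s.testBit x = true)
    (hy : s.testBit y = false) :
    totalWeight Gr w (graphOf (s ^^^ (1 <<< (x : ℕ)) ^^^ (1 <<< (y : ℕ))))
      = totalWeight Gr w (graphOf s) - w (eEquiv x) + w (eEquiv y) := by
  rw [totalWeight_graphOf, totalWeight_graphOf]
  have hxy : x ≠ y := by
    rintro rfl
    rw [hx] at hy
    exact absurd hy (by decide)
  have h1 : ∀ i : Fin 10,
      (if (s ^^^ (1 <<< (x : ℕ)) ^^^ (1 <<< (y : ℕ))).testBit i = true then w (eEquiv i) else 0)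
      = (if s.testBit i = true then w (eEquiv i) else 0) - (if i = x then w (eEquiv i) else 0)
        + (if i = y then w (eEquiv i) else 0) := by
    intro i
    rw [Nat.testBit_xor, Nat.testBit_xor, Nat.one_shiftLeft, Nat.one_shiftLeft,
      Nat.testBit_two_pow, Nat.testBit_two_pow]
    by_cases hix : i = x
    · subst hix
      have : ¬ ((y : ℕ) = (i : ℕ)) := fun h => hxy (Fin.ext h.symm)
      simp [hx, this, hxy]
    · by_cases hiy : i = y
      · subst hiy
        have : ¬ ((x : ℕ) = (i : ℕ)) := fun h => hxy (Fin.ext h)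
        simp [hy, this, hix]
      · have h2 : ¬ ((x : ℕ) = (i : ℕ)) := fun h => hix (Fin.ext h.symm)
        have h3 : ¬ ((y : ℕ) = (i : ℕ)) := fun h => hiy (Fin.ext h.symm)
        simp [h2, h3, hix, hiy]
  rw [Finset.sum_congr rfl (fun i _ => h1 i), Finset.sum_add_distrib, Finset.sum_sub_distrib]
  simp

lemma constraints_of_min (w : Gr.edgeSet → ℝ) (d : ℕ × ℕ × ℕ) (hd : d ∈ treeData)
    (hmin : IsMinSpanningTree Gr w (graphOf d.1)) (x y : Fin 10) (hR : Rel d.2.1 x y) :
    w (eEquiv x) ≤ w (eEquiv y) := by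
  obtain ⟨h1, h2, h3⟩ := rel_spec d hd x y hR
  have h4 := hmin.2 _ ((isSpanningTree_graphOf _).mpr h3)
  rw [exchange w d.1 x y h1 h2] at h4
  linarith

lemma exists_min (w : Gr.edgeSet → ℝ) : ∃ T, IsMinSpanningTree Gr w T := by
  have hne : ({T : SimpleGraph (Fin 2 × Fin 4) | IsSpanningTree Gr T}).Nonempty := by
    refine ⟨graphOf 379, (isSpanningTree_graphOf 379).mpr (by decide +kernel)⟩
  obtain ⟨T, hT, hmin⟩ := Set.exists_min_image _ (totalWeight Gr w) (Set.toFinite _) hne
  exact ⟨T, hT, fun T' hT' => hmin T' hT'⟩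

lemma cover : (Set.univ : Set (Gr.edgeSet → ℝ)) ⊆
    {w | ∃ T, IsMinSpanningTree Gr w T ∧ SplitsInHalf T} ∪
      ⋃ d ∈ treeData.toFinset, (fun w : Gr.edgeSet → ℝ => w ∘ eEquiv) ⁻¹'
        {w | ∀ a b, Rel d.2.1 a b → w a ≤ w b} := by
  intro w _
  obtain ⟨T, hT⟩ := exists_min w
  by_cases hS : SplitsInHalf T
  · left
    exact ⟨T, hT, hS⟩
  · right
    obtain ⟨s, hs, rfl⟩ := exists_mask T hT.1.1
    have h3 := (isSpanningTree_graphOf s).mp hT.1
    have h4 : splitB s = false := by
      rw [Bool.eq_false_iff]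
      exact fun h => hS ((splitB_iff s h3).mp h)
    have h5 := (allB_iff _ _).mp ns_complete s hs
    rw [h3, h4] at h5
    simp only [Bool.not_true, Bool.false_or, nsMasks, List.contains_iff_mem, List.mem_map] at h5
    obtain ⟨d, hd, rfl⟩ := h5
    refine Set.mem_iUnion₂.mpr ⟨d, List.mem_toFinset.mpr hd, ?_⟩
    intro a b hab
    exact constraints_of_min w d hd hT a b hab

lemma measurable_constraints (st : ℕ) :
    MeasurableSet {w : Fin 10 → ℝ | ∀ a b, Rel st a b → w a ≤ w b} := by
  have : {w : Fin 10 → ℝ | ∀ a b, Rel st a b → w a ≤ w b}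
      = ⋂ a : Fin 10, ⋂ b : Fin 10, {w : Fin 10 → ℝ | Rel st a b → w a ≤ w b} := by
    ext w
    simp
  rw [this]
  refine MeasurableSet.iInter fun a => MeasurableSet.iInter fun b => ?_
  by_cases h : Rel st a b
  · simp only [h, true_implies]
    exact measurableSet_le (measurable_pi_apply _) (measurable_pi_apply _)
  · simp [h]

lemma mst_ge : (248 : ℝ) / 315 ≤ pMST Gr := by
  classical
  have hlaw : weightLaw Gr = cube Gr.edgeSet := by
    unfold weightLaw cube
    congr!
  have hsum : (1 : ENNReal) ≤ cube Gr.edgeSet {w | ∃ T, IsMinSpanningTree Gr w T ∧ SplitsInHalf T}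
      + ∑ d ∈ treeData.toFinset, ((64320 : ℕ) / (Nat.factorial 10 : ENNReal)) := by
    have h1 : cube Gr.edgeSet Set.univ = 1 := measure_univ
    rw [← h1]
    refine (measure_mono cover).trans ((measure_union_le _ _).trans ?_)
    gcongr
    refine (measure_biUnion_finset_le _ _).trans (Finset.sum_le_sum fun d hd => ?_)
    rw [(relabel eEquiv).measure_preimage (measurable_constraints _).nullMeasurableSet]
    exact prob_le d (List.mem_toFinset.mp hd)
  have hcard : treeData.toFinset.card ≤ 12 := by
    refine (List.toFinset_card_le _).trans (le_of_eq ?_)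
    rfl
  rw [Finset.sum_const, nsmul_eq_mul] at hsum
  have h2 : (treeData.toFinset.card : ENNReal) * ((64320 : ℕ) / (Nat.factorial 10 : ENNReal))
      ≤ ENNReal.ofReal (67 / 315) := by
    have h3 : ((64320 : ℕ) / (Nat.factorial 10 : ENNReal)) = ENNReal.ofReal (64320 / 3628800) := by
      rw [ENNReal.ofReal_div_of_pos (by norm_num)]
      norm_num [Nat.factorial]
    rw [h3]
    have h4 : (treeData.toFinset.card : ENNReal) ≤ ENNReal.ofReal 12 := by
      have : (treeData.toFinset.card : ENNReal) ≤ (12 : ℕ) := by exact_mod_cast hcard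
      refine this.trans (le_of_eq ?_)
      norm_num
    refine (mul_le_mul_left h4 _).trans (le_of_eq ?_)
    rw [← ENNReal.ofReal_mul (by norm_num)]
    norm_num
  have h5 : (1 : ENNReal) ≤ cube Gr.edgeSet {w | ∃ T, IsMinSpanningTree Gr w T ∧ SplitsInHalf T}
      + ENNReal.ofReal (67 / 315) := hsum.trans (by gcongr)
  have hfin : cube Gr.edgeSet {w | ∃ T, IsMinSpanningTree Gr w T ∧ SplitsInHalf T} ≠ ⊤ :=
    measure_ne_top _ _
  have h6 := ENNReal.toReal_mono (ENNReal.add_ne_top.mpr ⟨hfin, ENNReal.ofReal_ne_top⟩) h5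
  rw [ENNReal.toReal_add hfin ENNReal.ofReal_ne_top, ENNReal.toReal_ofReal (by norm_num)] at h6
  rw [pMST, hlaw]
  simp only [ENNReal.toReal_one] at h6
  linarith

/-- There are `a, b ≥ 1` with `ab` even for which the random minimum spanning tree of the grid
`P_a □ P_b` splits into two equal halves with larger probability than the uniform spanning tree. -/
theorem result : ∃ a b : ℕ, 1 ≤ a ∧ 1 ≤ b ∧ Even (a * b) ∧
    pUST (pathGraph a □ pathGraph b) < pMST (pathGraph a □ pathGraph b) := by
  refine ⟨2, 4, by norm_num, by norm_num, by decide, ?_⟩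
  have h1 := ust_eq
  have h2 := mst_ge
  rw [h1]
  refine lt_of_lt_of_le ?_ h2
  norm_num

end Pool.Agent.Results.MP_ddaf7c_pr.GridMSTExceedsUST
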